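import Pool.Agent.H14.RG.Targets

/-!
# Row TAK of the board reg_modules (MP_2697e3_an): the vectors in the kernel are tangent
-/

set_option autoImplicit false

namespace Pool.Agent.H82.RG

open MeasureTheory Metric Set Filter Topology Pool.Agent.H87.SN Pool.Agent.H14.RG
open scoped ContDiff RealInnerProductSpace

theorem pf_TAK (hRIN : T_RIN) : T_TAK := by
  intro m c N U F hL q hqN hqU v hv
  obtain ⟨R, -, hRq⟩ := hRIN m c U F hL.isOpen hL.smooth hL.surj
  obtain ⟨hRy, -⟩ := hRq q hqU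
  generalize R q = R0 at hRy
  have hF0 : F q = 0 := (hL.zero q hqU).1 hqN
  have hFc : ContDiffAt ℝ ∞ F q := hL.smooth.contDiffAt (hL.isOpen.mem_nhds hqU)
  have hFd : HasFDerivAt F (fderiv ℝ F q) q := (hFc.differentiableAt (by simp)).hasFDerivAt
  -- the affine parametrisation
  let Lg : ℝ × E c →L[ℝ] E m :=
    (ContinuousLinearMap.fst ℝ ℝ (E c)).smulRight v + R0.comp (ContinuousLinearMap.snd ℝ ℝ (E c))
  let g : ℝ × E c → E m := fun p => q + Lg p
  have hgs : ContDiff ℝ ∞ g := contDiff_const.add Lg.contDiff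
  have hg0 : g 0 = q := by simp [g]
  have hgd : HasFDerivAt g Lg 0 := by
    have := (Lg.hasFDerivAt (x := (0 : ℝ × E c))).const_add q
    exact this
  let Phi : ℝ × E c → ℝ × E c := fun p => (p.1, F (g p))
  have hPhiC : ContDiffAt ℝ ∞ Phi 0 := by
    refine contDiffAt_fst.prodMk ?_
    exact ContDiffAt.comp (g := F) (f := g) 0 (by rw [hg0]; exact hFc) hgs.contDiffAt
  have hFg : HasFDerivAt (fun p => F (g p)) ((fderiv ℝ F q).comp Lg) 0 :=
    HasFDerivAt.comp (g := F) (f := g) 0 (by rw [hg0]; exact hFd) hgd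
  have hcomp : (fderiv ℝ F q).comp Lg = ContinuousLinearMap.snd ℝ ℝ (E c) := by
    apply ContinuousLinearMap.ext
    rintro ⟨s, y⟩
    simp [Lg, hv, hRy]
  have hPhiD : HasFDerivAt Phi
      ((ContinuousLinearEquiv.refl ℝ (ℝ × E c) : (ℝ × E c) ≃L[ℝ] (ℝ × E c)) :
        (ℝ × E c) →L[ℝ] ℝ × E c) 0 := by
    have h1 : HasFDerivAt Phi ((ContinuousLinearMap.fst ℝ ℝ (E c)).prod
        ((fderiv ℝ F q).comp Lg)) 0 := hasFDerivAt_fst.prodMk hFg
    rw [hcomp] at h1
    have h2 : ((ContinuousLinearMap.fst ℝ ℝ (E c)).prod (ContinuousLinearMap.snd ℝ ℝ (E c))) =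
      ((ContinuousLinearEquiv.refl ℝ (ℝ × E c) : (ℝ × E c) ≃L[ℝ] (ℝ × E c)) :
        (ℝ × E c) →L[ℝ] ℝ × E c) := by
      apply ContinuousLinearMap.ext
      rintro ⟨s, y⟩
      simp
    rw [h2] at h1
    exact h1
  have hPhi0 : Phi 0 = 0 := by
    show ((0 : ℝ × E c).1, F (g 0)) = 0
    rw [hg0, hF0]; rfl
  have hn : (∞ : WithTop ℕ∞) ≠ 0 := by simp
  have hst := hPhiC.hasStrictFDerivAt' hPhiD hn
  set Psi : ℝ × E c → ℝ × E c := hPhiC.localInverse hPhiD hn with hPsi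
  have hPsiC : ContDiffAt ℝ ∞ Psi 0 := by
    have := hPhiC.to_localInverse hPhiD hn
    rw [hPhi0] at this
    exact this
  have hPsi0 : Psi 0 = 0 := by
    have := hPhiC.localInverse_apply_image hPhiD hn
    rw [hPhi0] at this
    exact this
  have hPsiR : ∀ᶠ y in 𝓝 (0 : ℝ × E c), Phi (Psi y) = y := by
    have := hst.eventually_right_inverse
    rw [hPhi0] at this
    exact this
  have hPsiD : HasFDerivAt Psi (ContinuousLinearMap.id ℝ (ℝ × E c)) 0 := by
    have := hst.to_localInverse.hasFDerivAt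
    rw [hPhi0] at this
    exact this
  -- the curve
  let i1 : ℝ →L[ℝ] ℝ × E c := ContinuousLinearMap.inl ℝ ℝ (E c)
  let ga : ℝ → E m := fun s => g (Psi (i1 s))
  have hi0 : i1 0 = 0 := by simp [i1]
  have hPi : ContDiffAt ℝ ∞ (fun s => Psi (i1 s)) 0 :=
    ContDiffAt.comp (g := Psi) (f := i1) 0 (by rw [hi0]; exact hPsiC) i1.contDiff.contDiffAt
  have hgaC : ContDiffAt ℝ ∞ ga 0 := hgs.contDiffAt.comp (0 : ℝ) hPi
  have hcont : Tendsto (fun s => i1 s) (𝓝 0) (𝓝 0) := by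
    have := i1.continuous.tendsto 0
    rwa [hi0] at this
  have hga0 : ga 0 = q := by
    show g (Psi (i1 0)) = q
    rw [hi0, hPsi0, hg0]
  have hev : ∀ᶠ s in 𝓝 (0 : ℝ), Phi (Psi (i1 s)) = i1 s := hcont.eventually hPsiR
  refine ⟨ga, hgaC.of_le (by exact WithTop.coe_le_coe.2 le_top), ?_, hga0, ?_⟩
  · have hU : ∀ᶠ s in 𝓝 (0 : ℝ), ga s ∈ U := by
      apply hgaC.continuousAt.eventually
      rw [hga0]
      exact hL.isOpen.mem_nhds hqU
    filter_upwards [hev, hU] with s hs hsU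
    rw [hL.zero _ hsU]
    have := congrArg Prod.snd hs
    simpa [Phi, i1, ga] using this
  · have h1 : HasFDerivAt (fun s => Psi (i1 s)) ((ContinuousLinearMap.id ℝ (ℝ × E c)).comp i1) 0 :=
      HasFDerivAt.comp (g := Psi) (f := i1) 0 (by rw [hi0]; exact hPsiD) i1.hasFDerivAt
    have hgd' : HasFDerivAt g Lg (Psi (i1 0)) := by rw [hi0, hPsi0]; exact hgd
    have h2 : HasFDerivAt ga (Lg.comp ((ContinuousLinearMap.id ℝ (ℝ × E c)).comp i1)) 0 :=
      HasFDerivAt.comp (g := g) (f := fun s => Psi (i1 s)) (0 : ℝ) hgd' h1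
    rw [h2.hasDerivAt.deriv]
    simp [Lg, i1]

end Pool.Agent.H82.RG
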