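import Pool.Agent.H70.RG.Targets

/-!
# Row ESCH of the board reg_modules (MP_2697e3_an): the first step of Schauder theory
-/

set_option autoImplicit false

namespace Pool.Agent.H82.RG

open MeasureTheory Metric Set Filter Topology Pool.Agent.H87.SN Pool.Agent.H70.RG
open scoped ContDiff

theorem sc_smooth {n : ℕ} (a : ℤ) (t : ℝ) {k : E n → ℝ} (hk : ContDiff ℝ ∞ k) :
    ContDiff ℝ ∞ (sc a t k) := by
  unfold sc
  have h : ContDiff ℝ ∞ (fun x : E n => t⁻¹ • x) := contDiff_id.const_smul _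
  exact contDiff_const.mul (hk.comp h)

theorem sc_supp {n : ℕ} (a : ℤ) {t : ℝ} (ht : 0 < t) {k : E n → ℝ}
    (hk : ∀ x, k x ≠ 0 → ‖x‖ ≤ 1) (x : E n) (hx : sc a t k x ≠ 0) : ‖x‖ ≤ t := by
  have h1 : k (t⁻¹ • x) ≠ 0 := by
    intro h
    apply hx
    unfold sc
    rw [h, mul_zero]
  have h2 := hk _ h1
  rw [norm_smul, Real.norm_of_nonneg (inv_nonneg.2 ht.le), inv_mul_le_iff₀ ht] at h2
  linarith

theorem pf_SCH (h0 : T_HLO) (h1 : T_HMO) (h2 : T_HAL) (h3 : T_HCD) (h4 : T_CVL) (h5 : T_SER)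
    (h6 : T_HBK) (h7 : T_RPF) (h8 : T_KEX) : T_SCH := by
  intro n F _ _ _ U v g hU hv hg hWE
  obtain ⟨φ, ζ, hK⟩ := h8 n
  obtain ⟨C, hC0, hC⟩ := h6 n ζ hK.sζ hK.pζ
  refine (h0 n F 2).2.2.1 v U ?_
  intro x₀ hx₀
  have hgc : ContinuousOn g U := (h1 n F 0 g U hU).2 hg
  obtain ⟨R₀, C₀, γ, hR₀, hC₀, hγ, hγ1, hsub, hH⟩ := hg x₀ hx₀
  set R : ℝ := min R₀ 1 with hR
  have hRpos : 0 < R := lt_min hR₀ one_pos
  have hR1 : R ≤ 1 := min_le_right _ _
  have hRR : R ≤ R₀ := min_le_left _ _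
  have hb : ball x₀ R ⊆ ball x₀ R₀ := ball_subset_ball hRR
  have hbU : ball x₀ R ⊆ U := hb.trans hsub
  set A : ℝ := ‖g x₀‖ + C₀ with hA
  have hA0 : 0 ≤ A := by positivity
  have hgA : ∀ y ∈ ball x₀ R, ‖g y‖ ≤ A := by
    intro y hy
    have hy1 : ‖y - x₀‖ ≤ 1 := by
      rw [mem_ball_iff_norm] at hy
      linarith
    have h := hH y (hb hy) x₀ (mem_ball_self hR₀)
    have hp : ‖y - x₀‖ ^ γ ≤ 1 := Real.rpow_le_one (norm_nonneg _) hy1 hγ.le
    have h' : ‖g y‖ ≤ ‖g x₀‖ + ‖g y - g x₀‖ := by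
      have := norm_add_le (g x₀) (g y - g x₀)
      rwa [add_sub_cancel] at this
    nlinarith
  have hgH : ∀ y ∈ ball x₀ R, ∀ z ∈ ball x₀ R, ‖g y - g z‖ ≤ A * ‖y - z‖ ^ γ := by
    intro y hy z hz
    refine (hH y (hb hy) z (hb hz)).trans ?_
    apply mul_le_mul_of_nonneg_right _ (Real.rpow_nonneg (norm_nonneg _) _)
    rw [hA]
    have := norm_nonneg (g x₀)
    linarith
  set r : ℝ := R / 4 with hr
  set t : ℝ := R / 8 with ht
  have hrpos : 0 < r := by positivity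
  have htpos : 0 < t := by positivity
  have h2r : ball x₀ (2 * r) ⊆ ball x₀ R := ball_subset_ball (by rw [hr]; linarith)
  -- the smooth part
  have hsm : HH 2 (cv (sc (-n) t φ) v) (ball x₀ r) := by
    have h := (h4 n F (sc (-n) t φ) v x₀ r t hrpos htpos (sc_smooth _ _ hK.sφ)
      (sc_supp _ htpos hK.pφ) (hv.mono ?_)).1
    · exact (h3 n F _ (ball x₀ r) isOpen_ball).2 h 2
    · refine (closedBall_subset_ball ?_).trans hbU
      rw [hr, ht]; linarith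
  -- the series
  have htk : ∀ k : ℕ, 0 < t / 2 ^ k ∧ t / 2 ^ k ≤ t := by
    intro k
    refine ⟨by positivity, div_le_self htpos.le (one_le_pow₀ (by norm_num))⟩
  have hHB : ∀ k : ℕ, HB (γ / 2) (C * A * (t / 2 ^ k) ^ (γ / 2)) 2
      (cv (sc (2 - n) (t / 2 ^ k) ζ) g) (ball x₀ r) := by
    intro k
    obtain ⟨h1k, h2k⟩ := htk k
    refine hC F g x₀ r (t / 2 ^ k) γ A hrpos h1k ?_ ?_ hγ hγ1 hA0 ?_ ?_
    · rw [ht] at h2k ⊢; linarith
    · rw [ht] at h2k ⊢; rw [hr]; linarith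
    · exact fun x hx => hgA x (h2r hx)
    · exact fun x hx y hy => hgH x (h2r hx) y (h2r hy)
  have hsum : Summable (fun k : ℕ => C * A * (t / 2 ^ k) ^ (γ / 2)) := by
    have hgeo : Summable (fun k : ℕ => ((1 / 2 : ℝ) ^ (γ / 2)) ^ k) := by
      apply summable_geometric_of_lt_one (Real.rpow_nonneg (by norm_num) _)
      exact Real.rpow_lt_one (by norm_num) (by norm_num) (by positivity)
    refine (hgeo.mul_left (C * A * t ^ (γ / 2))).congr ?_
    intro k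
    have e1 : t / 2 ^ k = t * ((1 / 2 : ℝ) ^ k) := by
      rw [one_div, inv_pow]; rfl
    rw [e1, Real.mul_rpow htpos.le (by positivity), ← Real.rpow_natCast, ← Real.rpow_mul (by norm_num),
      ← Real.rpow_natCast, ← Real.rpow_mul (by norm_num), mul_comm (γ / 2) (k : ℝ)]
    ring
  have hser := (h5 n F (γ / 2) (fun k => C * A * (t / 2 ^ k) ^ (γ / 2)) x₀ r (by positivity)
    (by linarith) hsum 2 (fun k => cv (sc (2 - n) (t / 2 ^ k) ζ) g) hHB).2
  have hse2 : HH 2 (fun x => ∑' k : ℕ, cv (sc (2 - n) (t / 2 ^ k) ζ) g x) (ball x₀ r) :=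
    (h0 n F 2).2.2.2 _ x₀ r (γ / 2) _ (by positivity) (by linarith) hser
  have hadd := (h2 n F F 2 (ball x₀ r) isOpen_ball).1 _ _ hsm hse2
  refine ⟨r, hrpos, (ball_subset_ball (by rw [hr]; linarith)).trans hbU, ?_⟩
  refine (h0 n F 2).2.1 _ v (ball x₀ r) isOpen_ball ?_ hadd
  intro x hx
  have hcb : closedBall x t ⊆ U := by
    refine Subset.trans ?_ hbU
    intro y hy
    rw [mem_closedBall] at hy
    rw [mem_ball] at hx ⊢
    have := dist_triangle y x x₀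
    rw [ht] at hy
    rw [hr] at hx
    linarith
  have hs := h7 n φ ζ hK F U v g hU hv hgc hWE x t htpos hcb
  rw [hs.tsum_eq, add_sub_cancel]

end Pool.Agent.H82.RG
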